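import Mathlib
import Pool.Agent.Q60.D3C.Stm
import Pool.Agent.W437.HQ.Endo
import Pool.Agent.Q60.D3.HomZ

/-!
# Project D3C, job C7: abelian varieties of CM type
-/

set_option linter.unusedSectionVars false
set_option linter.unusedVariables false

namespace Pool.Agent.Q280.D3C.Cmd

open Matrix Pool.Agent.H204R3.CM Pool.Agent.W437.HC Pool.Agent.W437.HD Pool.Agent.W437.HP
  Pool.Agent.W437.HQ Pool.Agent.Q60.D3

/-- A faithful module over a commutative reduced algebra of the same dimension is cyclic. -/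
theorem cyclic {V : Type*} [AddCommGroup V] [Module ℚ V] [FiniteDimensional ℚ V]
    (S : Subalgebra ℚ (Module.End ℚ V)) (hc : ∀ s ∈ S, ∀ t ∈ S, s * t = t * s)
    (hr : ∀ s ∈ S, s * s = 0 → s = 0) (hd : Module.finrank ℚ S = Module.finrank ℚ V) :
    ∃ h : V, ∀ v : V, ∃ s ∈ S, s h = v := by
  classical
  let _ : CommRing S := { (inferInstance : Ring S) with
    mul_comm := fun a b => Subtype.ext (hc a a.2 b b.2) }
  have _ : IsArtinianRing S := IsArtinianRing.of_finite ℚ S
  have _ : IsReduced S := by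
    refine (isReduced_iff_pow_one_lt 2 (by norm_num)).2 fun x hx => ?_
    have h1 := congrArg Subtype.val hx
    rw [pow_two] at h1
    exact Subtype.ext (hr x x.2 h1)
  have _ : Fintype (MaximalSpectrum S) := Fintype.ofFinite _
  let E := IsArtinianRing.equivPi S
  let f : MaximalSpectrum S → S := fun I => E.symm (Pi.single I 1)
  have hf0 : ∀ I, (f I : Module.End ℚ V) ≠ 0 := by
    intro I h0
    have h1 : f I = 0 := Subtype.ext h0
    have h2 : (Pi.single I 1 : ∀ I : MaximalSpectrum S, S ⧸ I.asIdeal) = 0 := by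
      have h3 := congrArg E h1
      rw [map_zero] at h3
      rw [← h3]
      exact (E.apply_symm_apply _).symm
    have h4 := congrFun h2 I
    rw [Pi.single_eq_same, Pi.zero_apply] at h4
    have h5 : Nontrivial (S ⧸ I.asIdeal) := Ideal.Quotient.nontrivial_iff.2 I.isMaximal.ne_top
    exact one_ne_zero h4
  have hff : ∀ I, f I * f I = f I := by
    intro I
    apply E.injective
    rw [map_mul]
    change E (E.symm _) * E (E.symm _) = E (E.symm _)
    rw [E.apply_symm_apply, ← Pi.single_mul, one_mul]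
  have hfg : ∀ I J, I ≠ J → f I * f J = 0 := by
    intro I J hIJ
    apply E.injective
    rw [map_mul, map_zero]
    change E (E.symm _) * E (E.symm _) = 0
    rw [E.apply_symm_apply, E.apply_symm_apply]
    funext K
    rw [Pi.mul_apply, Pi.zero_apply]
    by_cases h : K = I
    · subst h
      rw [Pi.single_eq_of_ne hIJ, mul_zero]
    · rw [Pi.single_eq_of_ne h, zero_mul]
  have hv : ∀ I, ∃ v : V, (f I : Module.End ℚ V) v ≠ 0 := by
    intro I
    by_contra h
    push Not at h
    exact hf0 I (LinearMap.ext h)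
  choose v hv using hv
  let h : V := ∑ I, (f I : Module.End ℚ V) (v I)
  have hfh : ∀ I, (f I : Module.End ℚ V) h = (f I : Module.End ℚ V) (v I) := by
    intro I
    change (f I : Module.End ℚ V) (∑ J, (f J : Module.End ℚ V) (v J)) = _
    rw [map_sum, Finset.sum_eq_single I]
    · have h1 := congrArg Subtype.val (hff I)
      exact LinearMap.congr_fun h1 (v I)
    · intro J _ hJ
      have h1 := congrArg Subtype.val (hfg I J hJ.symm)
      exact LinearMap.congr_fun h1 (v J)
    · intro hI
      exact absurd (Finset.mem_univ I) hI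
  have hinj : ∀ s : S, (s : Module.End ℚ V) h = 0 → s = 0 := by
    intro s hs
    by_contra hne
    have h1 : ∃ I, E s I ≠ 0 := by
      by_contra h1
      push Not at h1
      apply hne
      apply E.injective
      rw [map_zero]
      exact funext h1
    obtain ⟨I, hI⟩ := h1
    have hfld : IsField (S ⧸ I.asIdeal) :=
      (Ideal.Quotient.maximal_ideal_iff_isField_quotient I.asIdeal).1 I.isMaximal
    obtain ⟨b, hb⟩ := hfld.mul_inv_cancel hI
    have h2 : E.symm (Pi.single I b) * s = f I := by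
      apply E.injective
      rw [map_mul]
      change E (E.symm _) * E s = E (E.symm _)
      rw [E.apply_symm_apply, E.apply_symm_apply]
      funext K
      rw [Pi.mul_apply]
      by_cases h : K = I
      · subst h
        rw [Pi.single_eq_same, Pi.single_eq_same, mul_comm, hb]
      · rw [Pi.single_eq_of_ne h, Pi.single_eq_of_ne h, zero_mul]
    have h3 := LinearMap.congr_fun (congrArg Subtype.val h2) h
    have h4 : ((E.symm (Pi.single I b) * s : S) : Module.End ℚ V) h = 0 := by
      change ((E.symm (Pi.single I b) : S) : Module.End ℚ V) ((s : Module.End ℚ V) h) = 0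
      rw [hs, map_zero]
    rw [h4, hfh] at h3
    exact hv I h3.symm
  refine ⟨h, fun w => ?_⟩
  let φ : S →ₗ[ℚ] V :=
    { toFun := fun s => (s : Module.End ℚ V) h
      map_add' := fun a b => rfl
      map_smul' := fun a b => rfl }
  have h1 : Function.Injective φ := by
    rw [← LinearMap.ker_eq_bot, LinearMap.ker_eq_bot']
    exact hinj
  have h2 : Function.Surjective φ :=
    (LinearMap.injective_iff_surjective_of_finrank_eq_finrank hd).1 h1
  obtain ⟨s, hs⟩ := h2 w
  exact ⟨s, s.2, hs⟩

/-- Matrices which commute with a commutative family with a cyclic vector. -/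
theorem mem_span {B : Type*} [Fintype B] [DecidableEq B] (M : B → Matrix B B ℂ)
    (hM : ∀ i j, M i * M j = M j * M i) (x : B → ℂ) (hx : ∀ j, M j *ᵥ x = Pi.single j 1)
    (T : Matrix B B ℂ) (hT : ∀ j, T * M j = M j * T) : T = ∑ j, (T *ᵥ x) j • M j := by
  have h1 : (∑ j, (T *ᵥ x) j • M j) *ᵥ x = T *ᵥ x := by
    rw [Matrix.sum_mulVec]
    simp only [Matrix.smul_mulVec, hx]
    funext i
    simp [Finset.sum_apply, Pi.single_apply]
  have h2 : ∀ j, (∑ j, (T *ᵥ x) j • M j) * M j = M j * (∑ j, (T *ᵥ x) j • M j) := by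
    intro j
    rw [Finset.sum_mul, Finset.mul_sum]
    refine Finset.sum_congr rfl fun i _ => ?_
    rw [Matrix.smul_mul, Matrix.mul_smul, hM i j]
  have h3 : ∀ j, T *ᵥ Pi.single j 1 = (∑ j, (T *ᵥ x) j • M j) *ᵥ Pi.single j 1 := by
    intro j
    rw [← hx j, mulVec_mulVec, mulVec_mulVec, hT j, h2 j, ← mulVec_mulVec, ← mulVec_mulVec, h1]
  ext i j
  have h4 := congrFun (h3 j) i
  rw [mulVec_single_one, mulVec_single_one] at h4
  exact h4

theorem comm_of {B : Type*} [Fintype B] [DecidableEq B] (M : B → Matrix B B ℂ)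
    (hM : ∀ i j, M i * M j = M j * M i) (x : B → ℂ) (hx : ∀ j, M j *ᵥ x = Pi.single j 1)
    (T T' : Matrix B B ℂ) (hT : ∀ j, T * M j = M j * T) (hT' : ∀ j, T' * M j = M j * T') :
    T' * T = T * T' := by
  rw [mem_span M hM x hx T hT, Finset.mul_sum, Finset.sum_mul]
  refine Finset.sum_congr rfl fun i _ => ?_
  rw [Matrix.mul_smul, Matrix.smul_mul, hT' i]

/-- JOB C7. -/
theorem cmd : Pool.Agent.Q60.D3C.S_cmd := by
  intro A g Z e C hZ hpos hC hCM
  classical
  obtain ⟨S, hS, hcom, hred, hdim⟩ := hCM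
  obtain ⟨h, hh⟩ := cyclic S hcom hred hdim
  have hY : IsUnit (imM Z).det := hpos.isUnit.map Matrix.detMonoidHom
  let N : Module.End ℚ A.H → Matrix (Fin g ⊕ Fin g) (Fin g ⊕ Fin g) ℚ := fun s =>
    LinearMap.toMatrix' ((e.toLinearMap ∘ₗ s) ∘ₗ e.symm.toLinearMap)
  have hN : ∀ s v, N s *ᵥ v = e (s (e.symm v)) := by
    intro s v
    change LinearMap.toMatrix' ((e.toLinearMap ∘ₗ s) ∘ₗ e.symm.toLinearMap) *ᵥ v = _
    rw [← Matrix.toLin'_apply, Matrix.toLin'_toMatrix']
    rfl
  have hNmul : ∀ s t, N (s * t) = N s * N t := by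
    intro s t
    change LinearMap.toMatrix' _ = LinearMap.toMatrix' _ * LinearMap.toMatrix' _
    rw [← LinearMap.toMatrix'_comp]
    congr 1
    ext v
    simp
  have hcomm : ∀ s ∈ S, cK ℂ (N s) * DZ Z = DZ Z * cK ℂ (N s) := by
    intro s hs
    obtain ⟨C', hC'⟩ := hS s hs
    refine endo_comm hY (ψ := N s)
      (M := LinearMap.toMatrix' ((C.toLinearMap ∘ₗ C') ∘ₗ C.symm.toLinearMap)) ?_
    intro w
    rw [hN, ← Matrix.toLin'_apply, Matrix.toLin'_toMatrix', ← hC, ← hC']
    have h1 : perOne Z w = C (A.per (e.symm w)) := by rw [hC, LinearEquiv.apply_symm_apply]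
    rw [h1]
    simp
  choose s hs1 hs2 using fun j : Fin g ⊕ Fin g => hh (e.symm (Pi.single j 1))
  intro σ
  have hMσ : ∀ s ∈ S, (DZ Z).map σ * cK ℂ (N s) = cK ℂ (N s) * (DZ Z).map σ := by
    intro s hs
    have h1 := congrArg (fun A => A.map σ) (hcomm s hs)
    simp only [Matrix.map_mul] at h1
    rw [cK_map] at h1
    exact h1.symm
  refine comm_of (fun j => cK ℂ (N (s j))) (fun i j => ?_) (fun i => ((e h i : ℚ) : ℂ))
    (fun j => ?_) (DZ Z) ((DZ Z).map σ) (fun j => (hcomm _ (hs1 j)).symm) (fun j => hMσ _ (hs1 j))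
  · rw [← cK_mul, ← cK_mul, ← hNmul, ← hNmul, hcom _ (hs1 i) _ (hs1 j)]
  · rw [← Pool.Agent.W437.HP.cast_mulVec, hN, LinearEquiv.symm_apply_apply, hs2, LinearEquiv.apply_symm_apply]
    funext k
    by_cases hk : k = j
    · subst hk
      simp
    · simp [Pi.single_eq_of_ne hk]

end Pool.Agent.Q280.D3C.Cmd
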